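import Pool.Agent.W536.LM.Stm

/-! LM-TOP: the top coefficient is the value at infinity. -/

set_option autoImplicit false

open Polynomial W536.LM

namespace Pool.Agent.W513.LM

/-- `s^2 * Ep (1/s)` -/
noncomputable def Aq {S : Type} [CommRing S] (L m m' e s : S) : S[X] :=
  C (m * s ^ 2 - L * s) * X ^ 2 + C (m' * s + (1 - s) * (m * s - L) - e * s) * X + C ((1 - s) * m')

theorem Ep_map {S T : Type} [CommRing S] [CommRing T] (f : S →+* T) (L m m' e w : S) :
    (Ep L m m' e w).map f = Ep (f L) (f m) (f m') (f e) (f w) := by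
  unfold Ep
  simp only [Polynomial.map_add, Polynomial.map_mul, Polynomial.map_pow, Polynomial.map_sub,
    Polynomial.map_one, map_C, map_X, map_sub, map_mul, map_add, map_one]

theorem Aq_map {S T : Type} [CommRing S] [CommRing T] (f : S →+* T) (L m m' e w : S) :
    (Aq L m m' e w).map f = Aq (f L) (f m) (f m') (f e) (f w) := by
  unfold Aq
  simp only [Polynomial.map_add, Polynomial.map_mul, Polynomial.map_pow, Polynomial.map_sub,
    Polynomial.map_one, map_C, map_X, map_sub, map_mul, map_add, map_one, map_pow]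

theorem Aq_eq (L m m' e s : ℂ) (hs : s ≠ 0) : Aq L m m' e s = C (s ^ 2) * Ep L m m' e s⁻¹ := by
  unfold Aq Ep
  have e1 : m * s ^ 2 - L * s = s ^ 2 * (m - L * s⁻¹) := by field_simp
  have e2 : m' * s + (1 - s) * (m * s - L) - e * s =
      s ^ 2 * (m' * s⁻¹ + (s⁻¹ - 1) * (m - L * s⁻¹) - e * s⁻¹) := by field_simp
  have e3 : (1 - s) * m' = s ^ 2 * ((s⁻¹ - 1) * m' * s⁻¹) := by field_simp
  rw [e1, e2, e3]
  simp only [C_mul]
  ring

theorem Aq_zero (L m m' e : ℂ) : Aq L m m' e 0 = C m' - C L * X := by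
  unfold Aq
  simp
  ring

theorem quad_coeff (a b c : ℂ) : (C a * X ^ 2 + C b * X + C c).coeff 2 = a := by
  simp

theorem zero_case (P : Par ℂ) (w0 : ℂ) :
    (G 0 (P.map C) X (C w0)).coeff (2 ^ (0 + 1)) = Ginf 0 P w0 := by
  have h : G 0 (P.map C) X (C w0) = C (P.m 0 - P.L * w0) * X ^ 2 +
      C ((P.m 5 * w0) + (w0 - 1) * (P.m 0 - P.L * w0) - P.e 5 * w0) * X + C ((w0 - 1) * (P.m 5 * w0)) := by
    simp only [G, E0, Par.map, C_sub, C_mul, C_add, C_1]
    ring
  rw [h]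
  exact quad_coeff _ _ _

theorem t_TOP (hN : S_NAT) (hD : S_DEG) : S_TOP := by
  intro n P w0
  cases n with
  | zero => exact zero_case P w0
  | succ n =>
    obtain ⟨N, hNdef⟩ : ∃ N : ℕ, N = 2 ^ (n + 1) := ⟨_, rfl⟩
    have h2N : 2 ^ (n + 1 + 1) = 2 * N := by rw [hNdef, pow_succ]; ring
    -- the second polynomial
    have hB : G n ((P.map C).map C) (X : ℂ[X][X]) (C (C w0)) =
        (G n (P.map C) X (C w0)).map (C : ℂ →+* ℂ[X]) := by
      have h := hN n ℂ[X] ℂ[X][X] (mapRingHom (C : ℂ →+* ℂ[X])) (P.map C) X (C w0)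
      rw [coe_mapRingHom, Polynomial.map_X, Polynomial.map_C] at h
      rw [h]
      congr 1
      simp only [Par.map, coe_mapRingHom, Polynomial.map_C]
    have hR : G (n + 1) (P.map C) X (C w0) =
        resultant (Ep (C P.L) (C (P.m (4 - n))) (C (P.m (5 - n))) (C (P.e (4 - n))) (X : ℂ[X]))
          ((G n (P.map C) X (C w0)).map (C : ℂ →+* ℂ[X])) 2 N := by
      rw [← hB, hNdef]
      rfl
    obtain ⟨R, hRdef⟩ : ∃ R : ℂ[X], R = G (n + 1) (P.map C) X (C w0) := ⟨_, rfl⟩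
    obtain ⟨B, hBdef⟩ : ∃ B : ℂ[X], B = G n (P.map C) X (C w0) := ⟨_, rfl⟩
    have hdeg : R.natDegree ≤ 2 * N := by
      rw [hRdef, ← h2N]
      exact hD (n + 1) ℂ P w0
    rw [← hRdef, ← hBdef] at hR
    obtain ⟨R', hR'⟩ : ∃ R' : ℂ[X], R' =
      resultant (Aq (C P.L) (C (P.m (4 - n))) (C (P.m (5 - n))) (C (P.e (4 - n))) (X : ℂ[X]))
          (B.map (C : ℂ →+* ℂ[X])) 2 N := ⟨_, rfl⟩
    have hBev : ∀ s : ℂ, (B.map (C : ℂ →+* ℂ[X])).map (evalRingHom s) = B := by
      intro s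
      rw [Polynomial.map_map]
      have : (evalRingHom s).comp (C : ℂ →+* ℂ[X]) = RingHom.id ℂ := by
        ext x
        simp
      rw [this, Polynomial.map_id]
    have hC : ∀ s a : ℂ, evalRingHom s (C a) = a := fun s a => eval_C
    have hX : ∀ s : ℂ, evalRingHom s X = s := fun s => eval_X
    have ev1 : ∀ s : ℂ, R.eval s = resultant (Ep P.L (P.m (4 - n)) (P.m (5 - n)) (P.e (4 - n)) s) B 2 N := by
      intro s
      have h := resultant_map_map (Ep (C P.L) (C (P.m (4 - n))) (C (P.m (5 - n))) (C (P.e (4 - n))) (X : ℂ[X]))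
          (B.map (C : ℂ →+* ℂ[X])) 2 N (evalRingHom s)
      rw [hBev, Ep_map, ← hR, hC, hC, hC, hC, hX] at h
      exact h.symm
    have ev2 : ∀ s : ℂ, R'.eval s = resultant (Aq P.L (P.m (4 - n)) (P.m (5 - n)) (P.e (4 - n)) s) B 2 N := by
      intro s
      have h := resultant_map_map (Aq (C P.L) (C (P.m (4 - n))) (C (P.m (5 - n))) (C (P.e (4 - n))) (X : ℂ[X]))
          (B.map (C : ℂ →+* ℂ[X])) 2 N (evalRingHom s)
      rw [hBev, Aq_map, ← hR', hC, hC, hC, hC, hX] at h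
      exact h.symm
    have hagree : ∀ s : ℂ, s ≠ 0 → R'.eval s = (reflect (2 * N) R).eval s := by
      intro s hs
      rw [ev2, Aq_eq _ _ _ _ _ hs, resultant_C_mul_left, ← ev1]
      have : Invertible s⁻¹ := invertibleOfNonzero (inv_ne_zero hs)
      have h := eval₂_reflect_mul_pow (RingHom.id ℂ) s⁻¹ (2 * N) R hdeg
      rw [invOf_eq_inv, inv_inv] at h
      change (reflect (2 * N) R).eval s * s⁻¹ ^ (2 * N) = R.eval s⁻¹ at h
      rw [← h, ← pow_mul]
      have h1 : s ^ (2 * N) * s⁻¹ ^ (2 * N) = 1 := by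
        rw [← mul_pow, mul_inv_cancel₀ hs, one_pow]
      calc s ^ (2 * N) * ((reflect (2 * N) R).eval s * s⁻¹ ^ (2 * N))
          = (reflect (2 * N) R).eval s * (s ^ (2 * N) * s⁻¹ ^ (2 * N)) := by ring
        _ = _ := by rw [h1, mul_one]
    have hEq : R' = reflect (2 * N) R := by
      apply Polynomial.eq_of_infinite_eval_eq
      refine Set.Infinite.mono (s := {0}ᶜ) ?_ (Set.Finite.infinite_compl (Set.finite_singleton _))
      intro s hs
      exact hagree s hs
    have h0 : R'.eval 0 = R.coeff (2 * N) := by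
      rw [hEq, ← coeff_zero_eq_eval_zero, coeff_reflect, revAt_le (Nat.zero_le _), Nat.sub_zero]
    show (G (n + 1) (P.map C) X (C w0)).coeff (2 ^ (n + 1 + 1)) = Ginf (n + 1) P w0
    rw [h2N, ← hRdef, ← h0, ev2, Aq_zero, hBdef, hNdef]
    rfl

end Pool.Agent.W513.LM
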